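import Pool.Agent.Q20.OSQ.Count

/-!
MP_c3eb23_al, Q1: the answer is NO. There are groups `G`, `H` of odd order `3 ^ 9`, both of
exponent `27`, with `G` an LCM-group (even abelian) and `ψ(G) = ψ(H)`, whose order sequences are
different.

`G = C_27 × C_9 × C_9 × C_9` and `H = K × C_3`, where `K` is the group of order `3 ^ 8` of the maps
`z ↦ ω ^ i * 4 ^ t * z + (x + y * ω)` of `ℤ[ω]/27`, `ω ^ 2 + ω + 1 = 0`, with `x + y ≡ t` modulo `3`.
The numbers of elements of order dividing `3`, `9`, `27` are `81`, `6561`, `19683` in `G` and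
`4455`, `5103`, `19683` in `H`.

helper20.
-/

namespace Pool.Agent.Results.MP_c3eb23_al.OddCounterexample

/-- `G` is an LCM-group: `o(x ^ n * y)` divides `lcm (o(x ^ n), o(y))`. -/
def IsLCMGroup (G : Type) [Group G] : Prop :=
  ∀ (x y : G) (n : ℕ), orderOf (x ^ n * y) ∣ Nat.lcm (orderOf (x ^ n)) (orderOf y)

/-- The sum of the orders of the elements. -/
noncomputable def psi (G : Type) [Group G] [Fintype G] : ℕ := ∑ x : G, orderOf x

/-- The order sequence: the list of the orders of all elements, with multiplicity, arranged in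
non-decreasing order. -/
noncomputable def orderSequence (G : Type) [Group G] [Fintype G] : List ℕ :=
  ((Finset.univ : Finset G).val.map orderOf).sort (· ≤ ·)

open Q20.OSQ

/-- The abelian group `C_27 × C_9 × C_9 × C_9`. -/
def GG : Type := Multiplicative (ZMod 27 × ZMod 9 × ZMod 9 × ZMod 9)

instance : CommGroup GG :=
  inferInstanceAs (CommGroup (Multiplicative (ZMod 27 × ZMod 9 × ZMod 9 × ZMod 9)))
instance : Fintype GG :=
  inferInstanceAs (Fintype (Multiplicative (ZMod 27 × ZMod 9 × ZMod 9 × ZMod 9)))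
instance : DecidableEq GG :=
  inferInstanceAs (DecidableEq (Multiplicative (ZMod 27 × ZMod 9 × ZMod 9 × ZMod 9)))

/-- The group of the maps `z ↦ ω ^ i * 4 ^ t * z + (x + y * ω)` of `ℤ[ω]/27` with `x + y ≡ t`
modulo `3`. -/
def KK : Type := χ.ker

instance : Group KK := inferInstanceAs (Group χ.ker)
instance : Fintype KK := inferInstanceAs (Fintype χ.ker)
instance : DecidableEq KK := inferInstanceAs (DecidableEq χ.ker)

theorem gg27 (g : GG) : g ^ 27 = 1 := by
  have h1 : ∀ a : ZMod 27, 27 • a = 0 := by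
    intro a; rw [nsmul_eq_mul]; have : ((27 : ℕ) : ZMod 27) = 0 := by decide
    rw [this, zero_mul]
  have h2 : ∀ a : ZMod 9, 27 • a = 0 := by
    intro a; rw [nsmul_eq_mul]; have : ((27 : ℕ) : ZMod 9) = 0 := by decide
    rw [this, zero_mul]
  have key : 27 • Multiplicative.toAdd (α := ZMod 27 × ZMod 9 × ZMod 9 × ZMod 9) g = 0 := by
    ext
    · exact h1 _
    · exact h2 _
    · exact h2 _
    · exact h2 _
  exact key

theorem card_GG : Fintype.card GG = 19683 := by
  have h : Fintype.card GG = Fintype.card (ZMod 27 × ZMod 9 × ZMod 9 × ZMod 9) :=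
    Fintype.card_congr Multiplicative.toAdd
  rw [h]
  simp [ZMod.card]

/-- the elements of `GG` as quadruples -/
def toQ : GG ≃ ZMod 27 × ZMod 9 × ZMod 9 × ZMod 9 :=
  Multiplicative.toAdd (α := ZMod 27 × ZMod 9 × ZMod 9 × ZMod 9)

theorem toQ_pow (g : GG) (n : ℕ) : g ^ n = 1 ↔ n • toQ g = 0 := Iff.rfl

theorem card_toQ (P : ZMod 27 × ZMod 9 × ZMod 9 × ZMod 9 → Prop) [DecidablePred P] (n : ℕ)
    (h : ∀ p, P p ↔ n • p = 0) :
    (Finset.univ.filter fun g : GG => g ^ n = 1).card = (Finset.univ.filter P).card := by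
  refine Finset.card_bij (fun g _ => toQ g) ?_ ?_ ?_
  · intro g hg
    rw [Finset.mem_filter] at hg ⊢
    exact ⟨Finset.mem_univ _, (h _).2 ((toQ_pow g n).1 hg.2)⟩
  · intro a _ b _ hab
    exact toQ.injective hab
  · intro b hb
    rw [Finset.mem_filter] at hb
    refine ⟨toQ.symm b, ?_, toQ.apply_symm_apply b⟩
    rw [Finset.mem_filter]
    refine ⟨Finset.mem_univ _, (toQ_pow _ n).2 ?_⟩
    rw [toQ.apply_symm_apply]
    exact (h b).1 hb.2

set_option maxRecDepth 100000 in
set_option maxHeartbeats 0 in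
theorem gg3' : (Finset.univ.filter fun p : ZMod 27 × ZMod 9 × ZMod 9 × ZMod 9 =>
      p + p + p = 0).card = 81 := by decide +kernel

set_option maxRecDepth 100000 in
set_option maxHeartbeats 0 in
theorem gg9' : (Finset.univ.filter fun p : ZMod 27 × ZMod 9 × ZMod 9 × ZMod 9 =>
      (p + p + p) + (p + p + p) + (p + p + p) = 0).card = 6561 := by decide +kernel

theorem gg3 : (Finset.univ.filter fun g : GG => g ^ 3 = 1).card = 81 := by
  rw [← gg3']
  refine card_toQ _ 3 fun p => ?_
  have e : 3 • p = p + p + p := by abel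
  rw [e]

theorem gg9 : (Finset.univ.filter fun g : GG => g ^ 9 = 1).card = 6561 := by
  rw [← gg9']
  refine card_toQ _ 9 fun p => ?_
  have e : 9 • p = (p + p + p) + (p + p + p) + (p + p + p) := by abel
  rw [e]

theorem exp_GG : 27 ∣ Monoid.exponent GG := by
  have h3 : orderOf (toQ.symm (1, 0, 0, 0)) = 3 ^ (2 + 1) := by
    refine orderOf_eq_prime_pow ?_ ?_
    · rw [toQ_pow, toQ.apply_symm_apply]
      decide +kernel
    · rw [toQ_pow, toQ.apply_symm_apply]
      decide +kernel
  have h4 := Monoid.order_dvd_exponent (toQ.symm (1, 0, 0, 0))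
  rw [h3] at h4
  exact h4

/-- counting in `χ.ker` and in the product with `C_3` -/
theorem card_ker_filter (P : Aff → Prop) [DecidablePred P] :
    (Finset.univ.filter fun g : χ.ker => P g.1).card
      = (Finset.univ.filter fun g : Aff => χ g = 1 ∧ P g).card := by
  refine Finset.card_bij (fun g _ => g.1) ?_ ?_ ?_
  · intro g hg
    rw [Finset.mem_filter] at hg ⊢
    exact ⟨Finset.mem_univ _, g.2, hg.2⟩
  · intro a _ b _ hab
    exact Subtype.ext hab
  · intro b hb
    rw [Finset.mem_filter] at hb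
    exact ⟨⟨b, hb.2.1⟩, by rw [Finset.mem_filter]; exact ⟨Finset.mem_univ _, hb.2.2⟩, rfl⟩

theorem card_ker : Fintype.card χ.ker = 6561 := by
  have h := card_ker_filter (fun _ => True)
  simp only [and_true, cntK] at h
  rw [← h, Finset.filter_true, Finset.card_univ]

theorem countP_os (G : Type) [Group G] [Fintype G] [DecidableEq G] :
    (orderSequence G).countP (fun n => n ∣ 3) = (Finset.univ.filter fun g : G => g ^ 3 = 1).card := by
  have h1 : (orderSequence G).countP (fun n => n ∣ 3)
      = Multiset.countP (fun n => n ∣ 3) ((Finset.univ : Finset G).val.map orderOf) := by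
    rw [← Multiset.coe_countP, orderSequence, Multiset.sort_eq]
  rw [h1, Multiset.countP_map]
  congr 1
  rw [Finset.filter_val]
  refine Multiset.filter_congr fun x _ => ?_
  exact orderOf_dvd_iff_pow_eq_one

theorem card_C3 : Fintype.card (Multiplicative (ZMod 3)) = 3 :=
  (Fintype.card_congr (Multiplicative.toAdd (α := ZMod 3))).trans (ZMod.card 3)

theorem prod_pow {K : Type} [Group K] [Fintype K] [DecidableEq K] (n m : ℕ)
    (hn : ∀ a : Multiplicative (ZMod 3), a ^ n = 1)
    (h : (Finset.univ.filter fun g : K => g ^ n = 1).card = m) :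
    (Finset.univ.filter fun g : K × Multiplicative (ZMod 3) => g ^ n = 1).card = m * 3 := by
  have h1 : (Finset.univ.filter fun g : K × Multiplicative (ZMod 3) => g ^ n = 1)
      = (Finset.univ.filter fun g : K => g ^ n = 1) ×ˢ
        (Finset.univ : Finset (Multiplicative (ZMod 3))) := by
    ext g
    have key : g ^ n = 1 ↔ g.1 ^ n = 1 := by
      rw [Prod.ext_iff, Prod.pow_fst, Prod.pow_snd, Prod.fst_one, Prod.snd_one]
      exact and_iff_left (hn _)
    simp only [Finset.mem_filter, Finset.mem_product, Finset.mem_univ, true_and, and_true, key]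
  rw [h1, Finset.card_product, h, Finset.card_univ, card_C3]

theorem sum_gen {K : Type} [Group K] [Fintype K] [DecidableEq K] (a b c : ℕ)
    (h27 : ∀ g : K, g ^ 27 = 1)
    (h3 : (Finset.univ.filter fun g : K => g ^ 3 = 1).card = a)
    (h9 : (Finset.univ.filter fun g : K => g ^ 9 = 1).card = b)
    (hc : Fintype.card K = c) :
    (orderSequence K).countP (fun n => n ∣ 3) = a ∧ psi K + 18 * b + 6 * a + 2 = 27 * c := by
  have h := sum_orderOf h27
  rw [h9, h3, hc] at h
  exact ⟨by rw [countP_os, h3], h⟩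

theorem prod_sum {K : Type} [Group K] [Fintype K] [DecidableEq K] (a b c : ℕ)
    (h27 : ∀ g : K, g ^ 27 = 1)
    (h3 : (Finset.univ.filter fun g : K => g ^ 3 = 1).card = a)
    (h9 : (Finset.univ.filter fun g : K => g ^ 9 = 1).card = b)
    (hc : Fintype.card K = c) :
    (∀ g : K × Multiplicative (ZMod 3), g ^ 27 = 1) ∧
    Fintype.card (K × Multiplicative (ZMod 3)) = c * 3 ∧
    (orderSequence (K × Multiplicative (ZMod 3))).countP (fun n => n ∣ 3) = a * 3 ∧
    psi (K × Multiplicative (ZMod 3)) + 18 * (b * 3) + 6 * (a * 3) + 2 = 27 * (c * 3) := by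
  have e1 : ∀ g : K × Multiplicative (ZMod 3), g ^ 27 = 1 := by
    intro g
    have h1 : ∀ a : Multiplicative (ZMod 3), a ^ 27 = 1 := by decide
    rw [Prod.ext_iff, Prod.pow_fst, Prod.pow_snd]
    exact ⟨h27 _, h1 _⟩
  have e2 : Fintype.card (K × Multiplicative (ZMod 3)) = c * 3 := by
    rw [Fintype.card_prod, hc, card_C3]
  have e3 := prod_pow 3 a (by decide) h3
  have e9 := prod_pow 9 b (by decide) h9
  refine ⟨e1, e2, ?_, ?_⟩
  · rw [countP_os, e3]
  · have h := sum_orderOf e1
    rw [e9, e3, e2] at h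
    exact h

theorem ker3 : (Finset.univ.filter fun g : KK => g ^ 3 = 1).card = 1485 := by
  have e1 : (Finset.univ.filter fun g : KK => g ^ 3 = 1)
      = Finset.univ.filter fun g : KK => g.1 * g.1 * g.1 = 1 := by
    refine Finset.filter_congr fun g _ => ?_
    rw [← pow3]
    exact Subtype.ext_iff
  exact (congrArg Finset.card e1).trans ((card_ker_filter (fun g => g * g * g = 1)).trans cnt3)

theorem ker9 : (Finset.univ.filter fun g : KK => g ^ 9 = 1).card = 1701 := by
  have e1 : (Finset.univ.filter fun g : KK => g ^ 9 = 1)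
      = Finset.univ.filter fun g : KK =>
        (g.1 * g.1 * g.1) * (g.1 * g.1 * g.1) * (g.1 * g.1 * g.1) = 1 := by
    refine Finset.filter_congr fun g _ => ?_
    rw [← pow9]
    exact Subtype.ext_iff
  exact (congrArg Finset.card e1).trans ((card_ker_filter
    (fun g => (g * g * g) * (g * g * g) * (g * g * g) = 1)).trans cnt9)

theorem ker27 (g : KK) : g ^ 27 = 1 := Subtype.ext (pow27 g.1)

theorem card_KK : Fintype.card KK = 6561 := card_ker

theorem hh : (∀ g : KK × Multiplicative (ZMod 3), g ^ 27 = 1) ∧ Fintype.card (KK × Multiplicative (ZMod 3)) = 6561 * 3 ∧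
    (orderSequence (KK × Multiplicative (ZMod 3))).countP (fun n => n ∣ 3) = 1485 * 3 ∧
    psi (KK × Multiplicative (ZMod 3)) + 18 * (1701 * 3) + 6 * (1485 * 3) + 2 = 27 * (6561 * 3) :=
  prod_sum 1485 1701 6561 ker27 ker3 ker9 card_KK

theorem main : Fintype.card GG = 3 ^ 9 ∧ Fintype.card (KK × Multiplicative (ZMod 3)) = 3 ^ 9 ∧
    IsLCMGroup GG ∧ Monoid.exponent (KK × Multiplicative (ZMod 3)) ∣ Monoid.exponent GG ∧
    psi GG = psi (KK × Multiplicative (ZMod 3)) ∧
    orderSequence GG ≠ orderSequence (KK × Multiplicative (ZMod 3)) := by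
  refine ⟨?_, ?_, ?_, ?_, ?_, ?_⟩
  · rw [card_GG]; norm_num
  · exact hh.2.1
  · intro x y n
    exact (Commute.all (x ^ n) y).orderOf_mul_dvd_lcm
  · have h1 : Monoid.exponent (KK × Multiplicative (ZMod 3)) ∣ 27 :=
      Monoid.exponent_dvd_of_forall_pow_eq_one hh.1
    exact h1.trans exp_GG
  · have h1 := (sum_gen 81 6561 19683 gg27 gg3 gg9 card_GG).2
    have h2 := hh.2.2.2
    generalize psi GG = a at h1 ⊢
    generalize psi (KK × Multiplicative (ZMod 3)) = b at h2 ⊢
    omega
  · intro h
    have h1 := (sum_gen 81 6561 19683 gg27 gg3 gg9 card_GG).1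
    have h2 := hh.2.2.1
    rw [← h] at h2
    generalize List.countP (fun n => decide (n ∣ 3)) (orderSequence GG) = a at h1 h2
    omega

/-- **The answer to the question is negative.** There are groups `G` and `H` of the same odd order
`3 ^ 9` such that `G` is an LCM-group (even abelian), `exp(H)` divides `exp(G)` and `ψ(G) = ψ(H)`,
but the order sequences of `G` and `H` are different. -/
theorem result : ∃ (G H : Type) (_ : CommGroup G) (_ : Group H) (_ : Fintype G) (_ : Fintype H),
    Fintype.card G = 3 ^ 9 ∧ Fintype.card H = 3 ^ 9 ∧ IsLCMGroup G ∧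
    Monoid.exponent H ∣ Monoid.exponent G ∧ psi G = psi H ∧
    orderSequence G ≠ orderSequence H :=
  ⟨GG, KK × Multiplicative (ZMod 3), inferInstance, inferInstance, inferInstance, inferInstance, main⟩

end Pool.Agent.Results.MP_c3eb23_al.OddCounterexample
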